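import Pool.Agent.Run7.h373.CK.Stm
import Pool.Agent.W405.CG.Loc

/-!
# Piece LOC of project CK (helper373): valuations
-/

set_option autoImplicit false

namespace Pool.Agent.Run7.h354.CK

open Polynomial NumberField nonZeroDivisors WithZero Pool.Agent.W289.CG Pool.Agent.W405.CG
  Pool.Agent.Run7.h373.CK

section

variable {K : Type} [Field K] {w : Valuation K (WithZero (Multiplicative ℤ))}

/-- the valuation of a monic polynomial at a nonintegral element -/
lemma monic_val (hint : ∀ a : ℤ, w (a : K) ≤ 1) {θ : K} (hθ : 1 < w θ) {Q : ℤ[X]} (hQ : Q.Monic) :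
    w (aeval θ Q) = w θ ^ Q.natDegree := by
  have e1 : aeval θ Q = θ ^ Q.natDegree +
      ∑ i ∈ Finset.range Q.natDegree, ((Q.coeff i : ℤ) : K) * θ ^ i := by
    conv_lhs => rw [hQ.as_sum]
    rw [map_add, map_pow, aeval_X, map_sum]
    congr 1
    refine Finset.sum_congr rfl fun i _ => ?_
    rw [map_mul, map_pow, aeval_X, aeval_C]
    simp
  have h0 : w θ ≠ 0 := (zero_lt_one.trans hθ).ne'
  have h2 : w (∑ i ∈ Finset.range Q.natDegree, ((Q.coeff i : ℤ) : K) * θ ^ i) <
      w (θ ^ Q.natDegree) := by
    rw [map_pow]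
    refine w.map_sum_lt (pow_ne_zero _ h0) ?_
    intro i hi
    rw [map_mul, map_pow]
    refine lt_of_le_of_lt (mul_le_of_le_one_left' (hint _)) ?_
    exact pow_lt_pow_right₀ hθ (Finset.mem_range.1 hi)
  rw [e1, w.map_add_eq_of_lt_left h2, map_pow]

/-- a factor `θ - p` of `F θ` and the complementary factor are not both nonunits -/
lemma not_both (hint : ∀ a : ℤ, w (a : K) ≤ 1) {θ : K} (hθ : w θ ≤ 1) (F G : ℤ[X]) (p r : ℤ)
    (hF : F = (X - C p) * G) (hcop : IsCoprime r (F.derivative.eval p)) (hr : w (r : K) < 1)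
    (h1 : w (θ - (p : K)) < 1) (h2 : w (aeval θ G) < 1) : False := by
  obtain ⟨H, hH⟩ := dvd_iff_isRoot.mpr (show (G - C (G.eval p)).IsRoot p by simp [IsRoot.def])
  have hd : F.derivative.eval p = G.eval p := by
    rw [hF, derivative_mul]
    simp
  rw [hd] at hcop
  have e2 : aeval θ G - ((G.eval p : ℤ) : K) = (θ - (p : K)) * aeval θ H := by
    have := congrArg (aeval θ) hH
    rw [map_mul, map_sub, map_sub, aeval_X, aeval_C, aeval_C] at this
    simpa using this
  have hH1 : w (aeval θ H) ≤ 1 := aeval_le hint hθ H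
  have h4 : w ((G.eval p : ℤ) : K) < 1 := by
    have e3 : ((G.eval p : ℤ) : K) = aeval θ G - (θ - (p : K)) * aeval θ H := by
      rw [← e2]; ring
    rw [e3]
    refine w.map_sub_lt h2 ?_
    rw [map_mul]
    exact mul_lt_one_of_lt_of_le h1 hH1
  exact coprime_val hint hcop hr h4

end

theorem t_LOC : S_LOC := by
  intro n M D m s t L K _ _ θ hm hL0 hs0 ht0 hF hst hsb htb v
  set w := v.valuation K with hw
  have hint : ∀ a : ℤ, w (a : K) ≤ 1 := by
    intro a
    have := v.valuation_le_one (K := K) (a : 𝓞 K)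
    simpa using this
  -- the two equations
  have h1 : (L : K) * aeval θ D.A = -(s : K) ^ m := by
    linear_combination hF.hθ
  have h2 : (L : K) * aeval θ (D.A - C D.c) = -(t : K) ^ m := by
    have h3 : ((L * D.c : ℤ) : K) = ((t ^ m - s ^ m : ℤ) : K) := by rw [hF.hL]
    push_cast at h3
    rw [map_sub, aeval_C, mul_sub, h1]
    simp only [eq_intCast]
    linear_combination -h3
  rcases le_or_gt (w θ) 1 with hθ | hθ
  · -- integral case
    have hLw : w (L : K) = 1 := by
      by_contra hne
      have hLlt : w (L : K) < 1 := lt_of_le_of_ne (hint L) hne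
      have hslt : w (s : K) < 1 := by
        refine lt_of_le_of_ne (hint s) fun h3 => ?_
        have h4 := congrArg w h1
        rw [map_mul, Valuation.map_neg, map_pow, h3, one_pow] at h4
        exact hne (one_of_mul w (hint L) (aeval_le hint hθ _) h4)
      have htlt : w (t : K) < 1 := by
        refine lt_of_le_of_ne (hint t) fun h3 => ?_
        have h4 := congrArg w h2
        rw [map_mul, Valuation.map_neg, map_pow, h3, one_pow] at h4
        exact hne (one_of_mul w (hint L) (aeval_le hint hθ _) h4)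
      exact coprime_val hint hst hslt htlt
    have hs0' : (s : K) ≠ 0 := by exact_mod_cast hs0
    have ht0' : (t : K) ≠ 0 := by exact_mod_cast ht0
    have hbad : ∀ x, (derivative D.A).eval (D.pt x) ∣ D.bad := fun x =>
      Finset.dvd_prod_of_mem _ (Finset.mem_univ x)
    have hpt : ∀ x, ∃ z : ℤ, w (θ - (D.pt x : K)) = exp ((m : ℤ) * z) := by
      intro x
      rcases D.hval x with hx | hx
      · exact key hint hθ D.A (D.pt x) s L hx hLw h1
          (IsCoprime.of_isCoprime_of_dvd_right hsb (hbad x)) hs0'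
      · refine key hint hθ (D.A - C D.c) (D.pt x) t L ?_ hLw h2 ?_ ht0'
        · rw [eval_sub, hx, eval_C, sub_self]
        · have e : derivative (D.A - C D.c) = derivative D.A := by
            rw [derivative_sub, derivative_C, sub_zero]
          rw [e]
          exact IsCoprime.of_isCoprime_of_dvd_right htb (hbad x)
    -- the cofactor
    have hQ : ∃ z : ℤ, w (aeval θ D.Q) = exp ((m : ℤ) * z) := by
      have hQ1 : w (aeval θ D.Q) ≤ 1 := aeval_le hint hθ _
      by_cases hQe : w (aeval θ D.Q) = 1
      · exact ⟨0, by rw [hQe, mul_zero, exp_zero]⟩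
      have hQlt : w (aeval θ D.Q) < 1 := lt_of_le_of_ne hQ1 hQe
      set I := Finset.univ.filter (fun i => D.A.eval (D.pt i) = 0) with hI
      have hA : aeval θ D.A = aeval θ D.Q * ∏ i ∈ I, (θ - (D.pt i : K)) := by
        conv_lhs => rw [D.hfac]
        rw [map_mul, map_prod]
        congr 1
        refine Finset.prod_congr rfl fun i _ => ?_
        rw [map_sub, aeval_X, aeval_C]
        simp
      have hmul : w (aeval θ D.A) = w (s : K) ^ m := by
        have := congrArg w h1
        rw [map_mul, hLw, one_mul, Valuation.map_neg, map_pow] at this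
        exact this
      have hp1 : ∀ i, w (θ - (D.pt i : K)) ≤ 1 := fun i => w.map_sub_le hθ (hint _)
      have hprod1 : ∀ J : Finset (Fin (M + 1)), w (∏ i ∈ J, (θ - (D.pt i : K))) ≤ 1 := by
        intro J
        rw [map_prod]
        exact Finset.prod_le_one' fun i _ => hp1 i
      have hslt : w (s : K) < 1 := by
        refine lt_of_le_of_ne (hint s) fun h3 => ?_
        rw [h3, one_pow, hA, map_mul] at hmul
        exact hQe (one_of_mul w hQ1 (hprod1 I) hmul)
      have hunit : ∀ i ∈ I, w (θ - (D.pt i : K)) = 1 := by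
        intro i hi
        by_contra hne
        have hlt : w (θ - (D.pt i : K)) < 1 := lt_of_le_of_ne (hp1 i) hne
        refine not_both hint hθ D.A (D.Q * ∏ k ∈ I.erase i, (X - C (D.pt k))) (D.pt i) s ?_
          (IsCoprime.of_isCoprime_of_dvd_right hsb (hbad i)) hslt hlt ?_
        · conv_lhs => rw [D.hfac, ← hI, ← Finset.mul_prod_erase I _ hi]
          ring
        · rw [map_mul, map_mul]
          refine mul_lt_one_of_lt_of_le hQlt ?_
          have e : aeval θ (∏ k ∈ I.erase i, (X - C (D.pt k))) =
              ∏ k ∈ I.erase i, (θ - (D.pt k : K)) := by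
            rw [map_prod]
            refine Finset.prod_congr rfl fun k _ => ?_
            rw [map_sub, aeval_X, aeval_C]
            simp
          rw [e]
          exact hprod1 _
      have hprod : w (∏ i ∈ I, (θ - (D.pt i : K))) = 1 := by
        rw [map_prod]
        exact Finset.prod_eq_one hunit
      have hr0' : w (s : K) ≠ 0 := (w.ne_zero_iff).mpr hs0'
      refine ⟨log (w (s : K)), ?_⟩
      rw [hA, map_mul, hprod, mul_one] at hmul
      rw [hmul]
      conv_lhs => rw [← exp_log hr0']
      rw [← exp_nsmul, nsmul_eq_mul]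
    refine ⟨fun i j => ?_, fun j => ?_⟩
    · obtain ⟨z, hz⟩ := hpt i
      obtain ⟨z', hz'⟩ := hpt j
      refine ⟨z - z', ?_⟩
      rw [map_div₀, hz, hz', mul_sub, exp_sub]
    · obtain ⟨z, hz⟩ := hQ
      obtain ⟨z', hz'⟩ := hpt j
      refine ⟨z - D.Q.natDegree * z', ?_⟩
      rw [map_div₀, map_pow, hz, hz', ← exp_nsmul, ← exp_sub, nsmul_eq_mul]
      congr 1
      ring
  · -- the other case
    have hpt : ∀ x, w (θ - (D.pt x : K)) = w θ := fun x =>
      w.map_sub_eq_of_lt_left ((hint _).trans_lt hθ)
    have hne : w θ ≠ 0 := (zero_lt_one.trans hθ).ne'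
    refine ⟨fun i j => ⟨0, ?_⟩, fun j => ⟨0, ?_⟩⟩
    · rw [map_div₀, hpt, hpt, div_self hne, mul_zero, exp_zero]
    · rw [map_div₀, map_pow, hpt, monic_val hint hθ D.hQ, div_self (pow_ne_zero _ hne), mul_zero,
        exp_zero]

end Pool.Agent.Run7.h354.CK
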